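import Pool.Agent.Helper15.T8.Stmts

set_option autoImplicit false

/-!
MP_2f9829_co, part T8, module LOC: lower bound for the number of completions of a graph to a regular graph.
-/

open Finset

namespace Pool.Agent.Helper62.T8

open Pool.Agent.Helper15.T8

variable {n : ℕ}

theorem dg_insert {E : Finset (Sym2 (Fin n))} {e : Sym2 (Fin n)} (he : e ∉ E) (w : Fin n) :
    dg (insert e E) w = dg E w + if w ∈ e then 1 else 0 := by
  unfold dg
  rw [Finset.filter_insert]
  split_ifs with h
  · rw [Finset.card_insert_of_notMem]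
    intro h'
    exact he (Finset.mem_filter.1 h').1
  · rfl

theorem dg_mono {E E' : Finset (Sym2 (Fin n))} (h : E ⊆ E') (w : Fin n) : dg E w ≤ dg E' w :=
  Finset.card_le_card (Finset.filter_subset_filter _ h)

theorem mem_GW {D : ℕ} {E : Finset (Sym2 (Fin n))} :
    E ∈ GW n D ∅ ↔ (∀ e ∈ E, ¬ e.IsDiag) ∧ ∀ v, dg E v ≤ D := by
  unfold GW
  simp

theorem mem_RG {D : ℕ} {E : Finset (Sym2 (Fin n))} :
    E ∈ RG n D ↔ (∀ e ∈ E, ¬ e.IsDiag) ∧ ∀ v, dg E v = D := by
  unfold RG
  simp

/-- Double counting of the completions and their new edges at a vertex. -/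
theorem step {D : ℕ} {E : Finset (Sym2 (Fin n))} {v : Fin n} {U : Finset (Fin n)}
    (hU : ∀ u ∈ U, s(u, v) ∉ E) :
    ∑ u ∈ U, cp n D (insert s(u, v) E) ≤ (D - dg E v) * cp n D E := by
  have h1 : ∀ u, cp n D (insert s(u, v) E) =
      ∑ E' ∈ (RG n D).filter (fun E' => E ⊆ E'), if s(u, v) ∈ E' then 1 else 0 := by
    intro u
    unfold cp
    rw [← Finset.card_filter, Finset.filter_filter]
    congr 1
    ext E'
    simp only [Finset.mem_filter, Finset.insert_subset_iff]
    tauto
  rw [Finset.sum_congr rfl (fun u _ => h1 u), Finset.sum_comm]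
  have h2 : ∀ E' ∈ (RG n D).filter (fun E' => E ⊆ E'),
      (∑ u ∈ U, if s(u, v) ∈ E' then 1 else 0) ≤ D - dg E v := by
    intro E' hE'
    rw [Finset.mem_filter] at hE'
    obtain ⟨hR, hE⟩ := hE'
    rw [← Finset.card_filter]
    have h3 : D - dg E v = ((E' \ E).filter (fun e => v ∈ e)).card := by
      rw [← (mem_RG.1 hR).2 v]
      unfold dg
      rw [← Finset.card_sdiff_of_subset (Finset.filter_subset_filter _ hE)]
      congr 1
      ext e
      simp only [Finset.mem_sdiff, Finset.mem_filter]
      tauto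
    rw [h3]
    apply Finset.card_le_card_of_injOn (fun u => s(u, v))
    · intro u hu
      rw [Finset.mem_coe, Finset.mem_filter] at hu
      rw [Finset.mem_coe, Finset.mem_filter, Finset.mem_sdiff]
      exact ⟨⟨hu.2, hU u hu.1⟩, Sym2.mem_mk_right u v⟩
    · intro u _ u' _ h
      exact Sym2.congr_left.1 h
  calc _ ≤ ∑ E' ∈ (RG n D).filter (fun E' => E ⊆ E'), (D - dg E v) := Finset.sum_le_sum h2
    _ = _ := by rw [Finset.sum_const, smul_eq_mul, mul_comm]; rfl

theorem mem_TT {D : ℕ} {E : Finset (Sym2 (Fin n))} {v : Fin n} :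
    v ∈ TT n D E ↔ dg E v + 2 ≤ D ∨ (dg E v < D ∧ ∃ u, u ≠ v ∧ dg E u < D ∧ s(u, v) ∈ E) := by
  unfold TT
  simp

/-- What happens when an edge is added at a vertex of deficiency one. -/
theorem add_edge {D : ℕ} {E : Finset (Sym2 (Fin n))} {u v : Fin n} (hE : E ∈ GW n D ∅)
    (huv : u ≠ v) (hn : s(u, v) ∉ E) (hu : dg E u + 1 = D) (hv : dg E v < D) :
    insert s(u, v) E ∈ GW n D ∅ ∧
    (∑ w, (D - dg (insert s(u, v) E) w) + 2 = ∑ w, (D - dg E w)) ∧
    TT n D (insert s(u, v) E) ⊆ TT n D E := by
  have hd := dg_insert hn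
  have hdu : dg (insert s(u, v) E) u = D := by
    rw [hd u, if_pos (Sym2.mem_mk_left u v)]
    exact hu
  refine ⟨?_, ?_, ?_⟩
  · rw [mem_GW] at hE ⊢
    refine ⟨?_, ?_⟩
    · intro e he
      rw [Finset.mem_insert] at he
      rcases he with rfl | he
      · simpa using huv
      · exact hE.1 e he
    · intro w
      rw [hd w]
      split_ifs with h
      · rw [Sym2.mem_iff] at h
        rcases h with rfl | rfl
        · omega
        · omega
      · exact hE.2 w
  · have h1 : ∀ w, (D - dg E w) = (D - dg (insert s(u, v) E) w) +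
        ((if w = u then 1 else 0) + (if w = v then 1 else 0)) := by
      intro w
      rw [hd w]
      by_cases h1 : w = u
      · subst h1
        rw [if_pos (Sym2.mem_mk_left w v), if_pos rfl, if_neg huv]
        omega
      · by_cases h2 : w = v
        · subst h2
          rw [if_pos (Sym2.mem_mk_right u w), if_neg h1, if_pos rfl]
          omega
        · have h3 : w ∉ s(u, v) := by
            rw [Sym2.mem_iff]
            tauto
          rw [if_neg h3, if_neg h1, if_neg h2]
          omega
    rw [Finset.sum_congr rfl (fun w _ => h1 w), Finset.sum_add_distrib, Finset.sum_add_distrib]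
    simp
  · intro w hw
    rw [mem_TT] at hw ⊢
    have hm := fun x => dg_mono (Finset.subset_insert s(u, v) E) x
    rcases hw with hw | ⟨hw, x, hxw, hx, he⟩
    · left
      have := hm w
      omega
    · right
      have h1 := hm w
      have h2 := hm x
      refine ⟨by omega, x, hxw, by omega, ?_⟩
      rw [Finset.mem_insert] at he
      rcases he with he | he
      · exfalso
        have h3 : u ∈ s(x, w) := by
          rw [he]
          exact Sym2.mem_mk_left u v
        rw [Sym2.mem_iff] at h3
        rcases h3 with rfl | rfl <;> omega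
      · exact he

theorem df_succ (k : ℕ) : df (k + 1) = (2 * k + 1) * df k := by
  unfold df
  rw [Finset.prod_range_succ, mul_comm]

/-- The lower bound in integers. -/
theorem main (D : ℕ) : ∀ (k : ℕ) (E : Finset (Sym2 (Fin n))), E ∈ GW n D ∅ →
    ∑ v, (D - dg E v) = 2 * k → (∑ v ∈ TT n D E, (D - dg E v)) ≤ k →
    df k ≤ (2 * D) ^ (∑ v ∈ TT n D E, (D - dg E v)) * cp n D E := by
  intro k
  induction k with
  | zero =>
    intro E hE hs ht
    have hδ : (∑ v ∈ TT n D E, (D - dg E v)) = 0 := by omega
    rw [hδ, pow_zero, one_mul]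
    have h0 : df 0 = 1 := by
      unfold df
      simp
    rw [h0]
    have h1 : E ∈ (RG n D).filter (fun E' => E ⊆ E') := by
      rw [Finset.mem_filter, mem_RG]
      rw [mem_GW] at hE
      refine ⟨⟨hE.1, ?_⟩, subset_rfl⟩
      intro v
      have h2 : ∑ v, (D - dg E v) = 0 := by omega
      rw [Finset.sum_eq_zero_iff] at h2
      have h3 := h2 v (Finset.mem_univ v)
      have h4 := hE.2 v
      omega
    unfold cp
    exact Finset.card_pos.2 ⟨E, h1⟩
  | succ k ih =>
    intro E hE hs ht
    set δ := ∑ v ∈ TT n D E, (D - dg E v) with hδ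
    have hsplit : ∑ v ∈ TT n D E, (D - dg E v) + ∑ v ∈ (TT n D E)ᶜ, (D - dg E v) = 2 * (k + 1) := by
      rw [Finset.sum_add_sum_compl, hs]
    set U₀ := (TT n D E)ᶜ.filter (fun u => dg E u < D) with hU₀
    have hU1 : ∀ u ∈ U₀, dg E u + 1 = D := by
      intro u hu
      rw [hU₀, Finset.mem_filter, Finset.mem_compl, mem_TT] at hu
      omega
    have hUn : ∀ u ∈ U₀, ∀ w, w ≠ u → dg E w < D → s(w, u) ∉ E := by
      intro u hu w hwu hw he
      rw [hU₀, Finset.mem_filter, Finset.mem_compl, mem_TT] at hu
      exact hu.1 (Or.inr ⟨hu.2, w, hwu, hw, he⟩)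
    have hUc : ∑ v ∈ (TT n D E)ᶜ, (D - dg E v) = U₀.card := by
      rw [hU₀, Finset.card_filter]
      apply Finset.sum_congr rfl
      intro v hv
      rw [Finset.mem_compl, mem_TT] at hv
      split_ifs with h
      · omega
      · omega
    have hcard : δ + U₀.card = 2 * (k + 1) := by
      rw [← hUc]
      exact hsplit
    rcases Finset.eq_empty_or_nonempty (TT n D E) with hT | hT
    · -- no exceptional vertices
      have hδ0 : δ = 0 := by rw [hδ, hT, Finset.sum_empty]
      have hUne : U₀.Nonempty := by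
        rw [← Finset.card_pos]
        omega
      obtain ⟨v, hv⟩ := hUne
      have hv1 := hU1 v hv
      have h1 : ∀ u ∈ U₀.erase v, df k ≤ cp n D (insert s(u, v) E) := by
        intro u hu
        rw [Finset.mem_erase] at hu
        have hu1 := hU1 u hu.2
        have hn := hUn v hv u hu.1 (by omega)
        obtain ⟨a1, a2, a3⟩ := add_edge hE hu.1 hn hu1 (by omega)
        rw [hT, Finset.subset_empty] at a3
        have := ih (insert s(u, v) E) a1 (by omega) (by rw [a3, Finset.sum_empty]; omega)
        rw [a3, Finset.sum_empty, pow_zero, one_mul] at this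
        exact this
      have h2 : (U₀.erase v).card = 2 * k + 1 := by
        rw [Finset.card_erase_of_mem hv]
        omega
      have h3 := step (D := D) (E := E) (v := v) (U := U₀.erase v) (by
        intro u hu
        rw [Finset.mem_erase] at hu
        have hu1 := hU1 u hu.2
        exact hUn v hv u hu.1 (by omega))
      have h4 : D - dg E v = 1 := by omega
      rw [h4, one_mul] at h3
      rw [hδ0, pow_zero, one_mul, df_succ]
      calc (2 * k + 1) * df k = ∑ u ∈ U₀.erase v, df k := by
            rw [Finset.sum_const, h2, smul_eq_mul]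
        _ ≤ ∑ u ∈ U₀.erase v, cp n D (insert s(u, v) E) := Finset.sum_le_sum h1
        _ ≤ _ := h3
    · obtain ⟨v, hv⟩ := hT
      have hvD : dg E v < D := by
        have := mem_TT.1 hv
        rcases this with h | h
        · omega
        · exact h.1
      have hvU : ∀ u ∈ U₀, v ≠ u := by
        intro u hu h
        rw [hU₀, Finset.mem_filter, Finset.mem_compl] at hu
        rw [h] at hv
        exact hu.1 hv
      have hδ1 : 1 ≤ δ := by
        have : D - dg E v ≤ δ := by
          rw [hδ]
          exact Finset.single_le_sum (f := fun v => D - dg E v) (fun _ _ => Nat.zero_le _) hv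
        omega
      have h1 : ∀ u ∈ U₀, df k ≤ (2 * D) ^ (δ - 1) * cp n D (insert s(u, v) E) := by
        intro u hu
        have hu1 := hU1 u hu
        have hn : s(u, v) ∉ E := by
          rw [Sym2.eq_swap]
          exact hUn u hu v (hvU u hu) hvD
        obtain ⟨a1, a2, a3⟩ := add_edge hE (hvU u hu).symm hn hu1 hvD
        have a4 : ∑ w ∈ TT n D (insert s(u, v) E), (D - dg (insert s(u, v) E) w) ≤ δ - 1 := by
          have a5 : ∑ w ∈ TT n D (insert s(u, v) E), (D - dg (insert s(u, v) E) w) ≤
              ∑ w ∈ TT n D E, (D - dg (insert s(u, v) E) w) :=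
            Finset.sum_le_sum_of_subset a3
          have a6 : ∑ w ∈ TT n D E, (D - dg (insert s(u, v) E) w) < δ := by
            rw [hδ]
            apply Finset.sum_lt_sum
            · intro w _
              have := dg_mono (Finset.subset_insert s(u, v) E) w
              omega
            · refine ⟨v, hv, ?_⟩
              rw [dg_insert hn v, if_pos (Sym2.mem_mk_right u v)]
              omega
          omega
        have a7 := ih (insert s(u, v) E) a1 (by omega) (by omega)
        refine a7.trans (Nat.mul_le_mul_right _ ?_)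
        exact Nat.pow_le_pow_right (by omega) a4
      have h3 := step (D := D) (E := E) (v := v) (U := U₀) (by
        intro u hu
        rw [Sym2.eq_swap]
        exact hUn u hu v (hvU u hu) hvD)
      rw [df_succ]
      calc (2 * k + 1) * df k ≤ (2 * U₀.card) * df k := Nat.mul_le_mul_right _ (by omega)
        _ = 2 * ∑ u ∈ U₀, df k := by
            rw [Finset.sum_const, smul_eq_mul]
            ring
        _ ≤ 2 * ∑ u ∈ U₀, (2 * D) ^ (δ - 1) * cp n D (insert s(u, v) E) :=
            Nat.mul_le_mul_left _ (Finset.sum_le_sum h1)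
        _ = 2 * (2 * D) ^ (δ - 1) * ∑ u ∈ U₀, cp n D (insert s(u, v) E) := by
            rw [← Finset.mul_sum]
            ring
        _ ≤ 2 * (2 * D) ^ (δ - 1) * ((D - dg E v) * cp n D E) := Nat.mul_le_mul_left _ h3
        _ ≤ 2 * (2 * D) ^ (δ - 1) * (D * cp n D E) :=
            Nat.mul_le_mul_left _ (Nat.mul_le_mul_right _ (Nat.sub_le _ _))
        _ = (2 * D) ^ (δ - 1 + 1) * cp n D E := by ring
        _ = (2 * D) ^ δ * cp n D E := by rw [Nat.sub_add_cancel hδ1]

theorem st_LOC : ST_LOC := by
  intro D A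
  refine ⟨1 / ((2 * D + 1 : ℕ) : ℝ) ^ (D * A), by positivity, D * A, ?_⟩
  intro n k E hE hs hk hA
  have h1 : (∑ v ∈ TT n D E, (D - dg E v)) ≤ D * A := by
    calc (∑ v ∈ TT n D E, (D - dg E v)) ≤ ∑ v ∈ TT n D E, D :=
          Finset.sum_le_sum (fun _ _ => Nat.sub_le _ _)
      _ = (TT n D E).card * D := by rw [Finset.sum_const, smul_eq_mul]
      _ ≤ A * D := Nat.mul_le_mul_right _ hA
      _ = D * A := mul_comm _ _
  have h2 := main D k E hE hs (h1.trans hk)
  have h3 : df k ≤ (2 * D + 1) ^ (D * A) * cp n D E := by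
    refine h2.trans (Nat.mul_le_mul_right _ ?_)
    calc (2 * D) ^ (∑ v ∈ TT n D E, (D - dg E v)) ≤
          (2 * D + 1) ^ (∑ v ∈ TT n D E, (D - dg E v)) := Nat.pow_le_pow_left (by omega) _
      _ ≤ (2 * D + 1) ^ (D * A) := Nat.pow_le_pow_right (by omega) h1
  have h4 : (df k : ℝ) ≤ ((2 * D + 1 : ℕ) : ℝ) ^ (D * A) * (cp n D E : ℝ) := by
    exact_mod_cast h3
  have h5 : (0 : ℝ) < ((2 * D + 1 : ℕ) : ℝ) ^ (D * A) := by positivity
  rw [one_div, inv_mul_le_iff₀ h5]
  exact h4

end Pool.Agent.Helper62.T8
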